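import Pool.Agent.Helper65.HF.StC

namespace Pool.Agent.Helper30.HF

open Pool.Agent.Helper65.HF

theorem hLST : Pool.Agent.Helper65.HF.sLST := by
  classical
  constructor
  · intro b s Z
    unfold num
    have h : (srt (b + 1) (s + 1)).filter Z = (srt b (s + 1)).filter Z ∪
        ((srt (b + 1) s).filter (fun l => Z (l ++ [b]))).image (fun l => l ++ [b]) := by
      ext l
      simp only [Finset.mem_filter, Finset.mem_union, Finset.mem_image, mem_srt]
      constructor
      · rintro ⟨⟨h1, h2, h3⟩, h4⟩
        by_cases h5 : ∀ x ∈ l, x < b
        · exact Or.inl ⟨⟨h1, h2, h5⟩, h4⟩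
        · right
          push Not at h5
          obtain ⟨x, hx, hbx⟩ := h5
          obtain ⟨l', y, rfl⟩ : ∃ l' y, l = l' ++ [y] := by
            rcases List.eq_nil_or_concat l with h | ⟨l', y, h⟩
            · subst h
              simp at h1
            · exact ⟨l', y, by simpa using h⟩
          have hyb : y < b + 1 := h3 y (by simp)
          have h2' := List.pairwise_append.1 h2
          have hby : b ≤ y := by
            rw [List.mem_append] at hx
            rcases hx with hx | hx
            · exact hbx.trans (h2'.2.2 x hx y (by simp))
            · rw [List.mem_singleton] at hx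
              omega
          have hy : y = b := by omega
          subst hy
          exact ⟨l', ⟨⟨by simpa using h1, h2'.1, fun x hx => h3 x (by simp [hx])⟩, h4⟩, rfl⟩
      · rintro (⟨⟨h1, h2, h3⟩, h4⟩ | ⟨l', ⟨⟨h1, h2, h3⟩, h4⟩, rfl⟩)
        · exact ⟨⟨h1, h2, fun x hx => (h3 x hx).trans (Nat.lt_succ_self b)⟩, h4⟩
        · refine ⟨⟨by simp [h1], ?_, ?_⟩, h4⟩
          · refine List.pairwise_append.2 ⟨h2, by simp, fun x hx y hy => ?_⟩
            rw [List.mem_singleton] at hy
            have := h3 x hx
            omega
          · intro x hx
            rw [List.mem_append, List.mem_singleton] at hx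
            rcases hx with hx | hx
            · exact h3 x hx
            · omega
    rw [h, Finset.card_union_of_disjoint, Finset.card_image_of_injective]
    · intro l l' hl
      exact List.append_cancel_right hl
    · rw [Finset.disjoint_left]
      intro l hl hl'
      simp only [Finset.mem_filter, Finset.mem_image, mem_srt] at hl hl'
      obtain ⟨l', -, rfl⟩ := hl'
      have := hl.1.2.2 b (by simp)
      omega
  · intro b c j Z hj
    unfold num
    have h : (srt (b + 1) c).filter Z =
        (srt (b + 1) c).filter (fun l => Z l ∧ ¬ ∃ l', l = l' ++ List.replicate j b) ∪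
        ((srt (b + 1) (c - j)).filter (fun w => Z (w ++ List.replicate j b))).image
          (fun w => w ++ List.replicate j b) := by
      ext l
      simp only [Finset.mem_filter, Finset.mem_union, Finset.mem_image, mem_srt]
      constructor
      · rintro ⟨⟨h1, h2, h3⟩, h4⟩
        by_cases h5 : ∃ l', l = l' ++ List.replicate j b
        · right
          obtain ⟨l', rfl⟩ := h5
          have h2' := List.pairwise_append.1 h2
          rw [List.length_append, List.length_replicate] at h1
          exact ⟨l', ⟨⟨by omega, h2'.1, fun x hx => h3 x (by simp [hx])⟩, h4⟩, rfl⟩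
        · exact Or.inl ⟨⟨h1, h2, h3⟩, h4, h5⟩
      · rintro (⟨⟨h1, h2, h3⟩, h4, -⟩ | ⟨l', ⟨⟨h1, h2, h3⟩, h4⟩, rfl⟩)
        · exact ⟨⟨h1, h2, h3⟩, h4⟩
        · refine ⟨⟨?_, ?_, ?_⟩, h4⟩
          · rw [List.length_append, List.length_replicate]
            omega
          · refine List.pairwise_append.2 ⟨h2, ?_, fun x hx y hy => ?_⟩
            · rw [List.pairwise_replicate]
              exact Or.inr le_rfl
            · rw [List.mem_replicate] at hy
              have := h3 x hx
              omega
          · intro x hx
            rw [List.mem_append, List.mem_replicate] at hx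
            rcases hx with hx | hx
            · exact h3 x hx
            · omega
    rw [h, Finset.card_union_of_disjoint, Finset.card_image_of_injective]
    · congr!
    · intro l l' hl
      exact List.append_cancel_right hl
    · rw [Finset.disjoint_left]
      intro l hl hl'
      simp only [Finset.mem_filter, Finset.mem_image] at hl hl'
      obtain ⟨l', -, rfl⟩ := hl'
      exact hl.2.2 ⟨l', rfl⟩

end Pool.Agent.Helper30.HF
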